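import Mathlib

/-!
A family of complex matrix representations whose weighted trace sum is the regular character
gives an isomorphism from the group algebra to a product of matrix algebras.
-/

set_option autoImplicit false

namespace Pool.Agent.Lib.MP_b0cbe6_al

open Matrix

/-- Regular family: matrix representations `ρ i` of degrees `d i` with
`∑ d i * tr (ρ i g) = |G| [g = 1]`. -/
theorem exists_algEquiv_of_regular {G I : Type} [Group G] [Fintype G] [DecidableEq G] [Fintype I]
    (n : I → Type) [∀ i, Fintype (n i)] [∀ i, DecidableEq (n i)]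
    (ρ : ∀ i, G →* Matrix (n i) (n i) ℂ) (d : I → ℕ)
    (hd : ∀ i, Fintype.card (n i) = d i)
    (hreg : ∀ g, ∑ i, (d i : ℂ) * (ρ i g).trace = if g = 1 then (Fintype.card G : ℂ) else 0) :
    Nonempty (MonoidAlgebra ℂ G ≃ₐ[ℂ] (∀ i, Matrix (Fin (d i)) (Fin (d i)) ℂ)) := by
  classical
  -- the product homomorphism
  let Φ : MonoidAlgebra ℂ G →ₐ[ℂ] (∀ i, Matrix (n i) (n i) ℂ) :=
    AlgHom.pi (fun i => MonoidAlgebra.lift ℂ (Matrix (n i) (n i) ℂ) G (ρ i))
  have hcard : (Fintype.card G : ℂ) ≠ 0 := by exact_mod_cast Fintype.card_ne_zero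
  -- trace functional
  have key : ∀ (a : MonoidAlgebra ℂ G) (g : G),
      ∑ i, (d i : ℂ) * (Φ a i * ρ i g⁻¹).trace = (Fintype.card G : ℂ) * a.coeff g := by
    intro a g
    induction a using MonoidAlgebra.induction_linear with
    | zero => simp
    | add x y hx hy =>
      simp only [map_add, Pi.add_apply, add_mul, Matrix.trace_add, mul_add, Finset.sum_add_distrib]
      rw [hx, hy, MonoidAlgebra.coeff_add, Finsupp.add_apply]
      ring
    | single h r =>
      have h1 : ∀ i, Φ (MonoidAlgebra.single h r) i * ρ i g⁻¹ = r • ρ i (h * g⁻¹) := by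
        intro i
        simp [Φ, MonoidAlgebra.lift_single, map_mul]
      simp only [h1, Matrix.trace_smul, smul_eq_mul]
      have h2 : ∑ i, (d i : ℂ) * (r * (ρ i (h * g⁻¹)).trace)
          = r * ∑ i, (d i : ℂ) * (ρ i (h * g⁻¹)).trace := by
        rw [Finset.mul_sum]; refine Finset.sum_congr rfl fun i _ => by ring
      rw [h2, hreg]
      by_cases hg : h = g
      · subst hg
        simp [MonoidAlgebra.coeff_single]
        ring
      · have : h * g⁻¹ ≠ 1 := fun e => hg (mul_inv_eq_one.mp e)
        simp [this, MonoidAlgebra.coeff_single, Finsupp.single_apply, hg]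
  have hinj : Function.Injective Φ := by
    rw [injective_iff_map_eq_zero]
    intro a ha
    ext g
    have := key a g
    rw [ha] at this
    simp at this
    exact this
  have hfr : Module.finrank ℂ (MonoidAlgebra ℂ G)
      = Module.finrank ℂ (∀ i, Matrix (n i) (n i) ℂ) := by
    have e1 : Module.finrank ℂ (MonoidAlgebra ℂ G) = Fintype.card G := by
      have : Module.finrank ℂ (G →₀ ℂ) = Fintype.card G := Module.finrank_finsupp_self ℂ
      rw [← this]
      exact LinearEquiv.finrank_eq (MonoidAlgebra.coeffLinearEquiv ℂ)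
    have e2 : Module.finrank ℂ (∀ i, Matrix (n i) (n i) ℂ) = ∑ i, d i * d i := by
      rw [Module.finrank_pi_fintype]
      refine Finset.sum_congr rfl fun i _ => ?_
      rw [Module.finrank_matrix]; simp [hd]
    have e3 : ∑ i, d i * d i = Fintype.card G := by
      have := hreg 1
      simp only [map_one, Matrix.trace_one, if_true, hd] at this
      exact_mod_cast this
    rw [e1, e2, e3]
  have hbij : Function.Bijective Φ := by
    refine ⟨hinj, ?_⟩
    have := LinearMap.injective_iff_surjective_of_finrank_eq_finrank (f := Φ.toLinearMap) hfr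
    exact this.mp hinj
  refine ⟨(AlgEquiv.ofBijective Φ hbij).trans (AlgEquiv.piCongrRight fun i => ?_)⟩
  exact Matrix.reindexAlgEquiv ℂ ℂ (Fintype.equivFinOfCardEq (hd i))

end Pool.Agent.Lib.MP_b0cbe6_al
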