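import Pool.Agent.Lib.MP_b0cbe6_al.Groups

/-!
Complete families of irreducible matrix representations of `S_3`, `C_3`, `A` and `H₀`,
verified through the regular character.
-/

set_option autoImplicit false

namespace Pool.Agent.Lib.MP_b0cbe6_al

open Matrix Equiv

/-- one dimensional representation from a multiplicative character -/
def oneDim {G : Type} [Group G] (ε : G →* ℂ) : G →* Matrix (Fin 1) (Fin 1) ℂ :=
  (Matrix.scalar (Fin 1)).toMonoidHom.comp ε

lemma trace_oneDim {G : Type} [Group G] (ε : G →* ℂ) (g : G) : (oneDim ε g).trace = ε g := by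
  simp [oneDim, Matrix.trace]

/-- the sign as a complex character -/
def sgnC : Perm (Fin 3) →* ℂ where
  toFun σ := ((Perm.sign σ : ℤ) : ℂ)
  map_one' := by simp
  map_mul' := by intro σ τ; simp

/-- standard representation, integrally -/
def stdZ : Perm (Fin 3) →* Matrix (Fin 2) (Fin 2) ℤ where
  toFun σ := Matrix.of fun i j =>
    (if σ j.castSucc = i.castSucc then 1 else 0) - (if σ 2 = i.castSucc then 1 else 0)
  map_one' := by decide +kernel
  map_mul' := by decide +kernel

/-- standard representation over `ℂ` -/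
def stdC : Perm (Fin 3) →* Matrix (Fin 2) (Fin 2) ℂ :=
  (Int.castRingHom ℂ).mapMatrix.toMonoidHom.comp stdZ

lemma trace_stdC (σ : Perm (Fin 3)) : (stdC σ).trace = (((stdZ σ).trace : ℤ) : ℂ) := by
  simp [stdC, Matrix.trace]

/-- dimensions of the irreducible representations of `S_3` -/
def dT : Fin 3 → ℕ
  | 0 => 1
  | 1 => 1
  | 2 => 2

/-- irreducible representations of `S_3` -/
def repT : (t : Fin 3) → Perm (Fin 3) →* Matrix (Fin (dT t)) (Fin (dT t)) ℂ
  | 0 => oneDim 1
  | 1 => oneDim sgnC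
  | 2 => stdC

lemma regT_int : ∀ σ : Perm (Fin 3),
    (1 : ℤ) + (Perm.sign σ : ℤ) + 2 * (stdZ σ).trace = if σ = 1 then 6 else 0 := by
  decide +kernel

lemma regT (σ : Perm (Fin 3)) :
    ∑ t, (dT t : ℂ) * (repT t σ).trace = if σ = 1 then (6 : ℂ) else 0 := by
  have h := regT_int σ
  rw [Fin.sum_univ_three]
  have e0 : (repT 0 σ).trace = 1 := by
    change (oneDim 1 σ).trace = 1
    rw [trace_oneDim]; rfl
  have e1 : (repT 1 σ).trace = ((Perm.sign σ : ℤ) : ℂ) := by
    change (oneDim sgnC σ).trace = _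
    rw [trace_oneDim]; rfl
  have e2 : (repT 2 σ).trace = (((stdZ σ).trace : ℤ) : ℂ) := by
    change (stdC σ).trace = _
    rw [trace_stdC]
  rw [e0, e1, e2]
  have d0 : dT 0 = 1 := rfl
  have d1 : dT 1 = 1 := rfl
  have d2 : dT 2 = 2 := rfl
  rw [d0, d1, d2]
  have h' := congrArg (fun z : ℤ => (z : ℂ)) h
  push_cast at h'
  push_cast
  linear_combination h'

/-- characters of `C_3` -/
noncomputable def lam (j : ZMod 3) : C3 →* ℂ where
  toFun c := ZMod.stdAddChar (j * c.toAdd)
  map_one' := by simp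
  map_mul' c d := by
    rw [toAdd_mul, mul_add, AddChar.map_add_eq_mul]

lemma regC (c : C3) : ∑ j : ZMod 3, lam j c = if c = 1 then (3 : ℂ) else 0 := by
  have := AddChar.sum_mulShift (R := ZMod 3) (R' := ℂ) c.toAdd (ZMod.isPrimitive_stdAddChar 3)
  have e : ∀ j : ZMod 3, lam j c = ZMod.stdAddChar (j * c.toAdd) := fun j => rfl
  simp only [e]
  rw [this]
  simp

end Pool.Agent.Lib.MP_b0cbe6_al
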