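import Pool.Agent.Lib.MP_b0cbe6_al.FamiliesTwo
import Pool.Agent.Lib.MP_b0cbe6_al.Criterion

/-!
Complete family for `H₀`, products, and the isomorphism of group algebras.
-/

set_option autoImplicit false

namespace Pool.Agent.Lib.MP_b0cbe6_al

open Matrix Equiv

/-! ### the group `H₀` -/

/-- index set for `H₀` -/
abbrev IH : Type := Fin 3 ⊕ (Fin 7 × Fin 3)

/-- index types of the matrices -/
def nH : IH → Type
  | Sum.inl t => Fin (dT t)
  | Sum.inr (_, 0) => Fin 3
  | Sum.inr (_, 1) => Fin 3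
  | Sum.inr (_, 2) => Perm (Fin 3)

instance (i : IH) : Fintype (nH i) := match i with
  | Sum.inl t => inferInstanceAs (Fintype (Fin (dT t)))
  | Sum.inr (_, 0) => inferInstanceAs (Fintype (Fin 3))
  | Sum.inr (_, 1) => inferInstanceAs (Fintype (Fin 3))
  | Sum.inr (_, 2) => inferInstanceAs (Fintype (Perm (Fin 3)))

instance (i : IH) : DecidableEq (nH i) := match i with
  | Sum.inl t => inferInstanceAs (DecidableEq (Fin (dT t)))
  | Sum.inr (_, 0) => inferInstanceAs (DecidableEq (Fin 3))
  | Sum.inr (_, 1) => inferInstanceAs (DecidableEq (Fin 3))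
  | Sum.inr (_, 2) => inferInstanceAs (DecidableEq (Perm (Fin 3)))

/-- degrees -/
def dH : IH → ℕ
  | Sum.inl t => dT t
  | Sum.inr (_, t) => 3 * dT t

lemma card_nH (i : IH) : Fintype.card (nH i) = dH i := match i with
  | Sum.inl _ => Fintype.card_fin _
  | Sum.inr (_, 0) => rfl
  | Sum.inr (_, 1) => rfl
  | Sum.inr (_, 2) => rfl

lemma pair_xc (w : W) (i : Fin 3) (v : V) : pair (xc w i) v = dot w (crd v i) := by
  have h0 : ∀ y : W, dot 0 y = 0 := by intro y; simp [dot]
  unfold pair xc
  fin_cases i <;> simp [h0]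

/-- degree three representations of `H₀` -/
noncomputable def rhoH3 (w : W) (ε : Perm (Fin 3) →* ℂ) : GH →* Matrix (Fin 3) (Fin 3) ℂ :=
  monRep phi (fun i => chi (xc w i))
    (by
      intro γ i v
      rw [chi_apply, chi_apply, chiZ, chiZ, pair_xc, pair_xc, phi_apply]
      simp only [toAdd_ofAdd]
      rw [crd_act]
      simp [Perm.smul_def]) ε

/-- degree six representations of `H₀` -/
noncomputable def rhoH6 (x : Fin 3 → W) : GH →* Matrix (Perm (Fin 3)) (Perm (Fin 3)) ℂ :=
  monRep phi (fun σ => chiAct x σ)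
    (by
      intro γ σ v
      exact chiAct_equiv x γ σ v) 1

/-- the representations of `H₀` -/
noncomputable def rhoH : (i : IH) → GH →* Matrix (nH i) (nH i) ℂ
  | Sum.inl t => (repT t).comp SemidirectProduct.rightHom
  | Sum.inr (k, 0) => rhoH3 (wv k) 1
  | Sum.inr (k, 1) => rhoH3 (wv k) sgnC
  | Sum.inr (k, 2) => rhoH6 (xl k)

lemma sumH : ∀ v : V,
    (∑ k, ∑ i, chiZ (xc (wv k) i) v) + (∑ k, ∑ β : Perm (Fin 3), chiZ (xl k) (act β⁻¹ v))
    = if v = 0 then 63 else -1 := by
  decide +kernel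

lemma fix_sign : ∀ (σ : Perm (Fin 3)) (i : Fin 3), σ ≠ 1 → i = σ i →
    (1 : ℤ) + (Perm.sign σ : ℤ) = 0 := by
  decide +kernel

lemma regH (g : GH) :
    ∑ i, (dH i : ℂ) * (rhoH i g).trace = if g = 1 then (384 : ℂ) else 0 := by
  rw [Fintype.sum_sum_type]
  have h1 : ∑ t : Fin 3, (dH (Sum.inl t) : ℂ) * (rhoH (Sum.inl t) g).trace
      = if g.right = 1 then 6 else 0 := by
    rw [← regT g.right]
    rfl
  have h2 : ∑ p : Fin 7 × Fin 3, (dH (Sum.inr p) : ℂ) * (rhoH (Sum.inr p) g).trace
      = if g.right = 1 then 6 * (if g.left.toAdd = 0 then 63 else -1) else 0 := by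
    rw [Fintype.sum_prod_type]
    have e : ∀ k, ∑ t, (dH (Sum.inr (k, t)) : ℂ) * (rhoH (Sum.inr (k, t)) g).trace
      = 3 * (rhoH3 (wv k) 1 g).trace + 3 * (rhoH3 (wv k) sgnC g).trace
        + 6 * (rhoH6 (xl k) g).trace := by
      intro k
      rw [Fin.sum_univ_three]
      have d0 : dH (Sum.inr (k, 0)) = 3 := rfl
      have d1 : dH (Sum.inr (k, 1)) = 3 := rfl
      have d2 : dH (Sum.inr (k, 2)) = 6 := rfl
      rw [d0, d1, d2]
      rfl
    simp only [e]
    by_cases hg : g.right = 1
    · have t1 : ∀ w, (rhoH3 w 1 g).trace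
          = ((∑ i, chiZ (xc w i) g.left.toAdd : ℤ) : ℂ) := by
        intro w
        rw [rhoH3, trace_monRep]
        push_cast
        refine Finset.sum_congr rfl fun i _ => ?_
        rw [hg]; simp [chi_apply]
      have t2 : ∀ w, (rhoH3 w sgnC g).trace
          = ((∑ i, chiZ (xc w i) g.left.toAdd : ℤ) : ℂ) := by
        intro w
        rw [rhoH3, trace_monRep]
        push_cast
        refine Finset.sum_congr rfl fun i _ => ?_
        rw [hg]; simp [chi_apply]
      have t3 : ∀ x, (rhoH6 x g).trace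
          = ((∑ β : Perm (Fin 3), chiZ x (act β⁻¹ g.left.toAdd) : ℤ) : ℂ) := by
        intro x
        rw [rhoH6, trace_monRep]
        push_cast
        refine Finset.sum_congr rfl fun i _ => ?_
        rw [hg]; simp [chiAct_apply]
      simp only [t1, t2, t3, hg, if_true]
      have := congrArg (fun z : ℤ => (z : ℂ)) (sumH g.left.toAdd)
      have e2 : (if g.left.toAdd = 0 then (63 : ℂ) else -1)
          = (((∑ k, ∑ i, chiZ (xc (wv k) i) g.left.toAdd)
            + (∑ k, ∑ β : Perm (Fin 3), chiZ (xl k) (act β⁻¹ g.left.toAdd)) : ℤ) : ℂ) := by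
        rw [sumH g.left.toAdd]; split_ifs <;> simp
      rw [e2]
      push_cast
      rw [mul_add, Finset.mul_sum, Finset.mul_sum, ← Finset.sum_add_distrib]
      refine Finset.sum_congr rfl fun k _ => ?_
      ring
    · rw [if_neg hg]
      refine Finset.sum_eq_zero fun k _ => ?_
      have t3 : (rhoH6 (xl k) g).trace = 0 := by
        rw [rhoH6, trace_monRep]
        refine Finset.sum_eq_zero fun c _ => ?_
        rw [if_neg]
        intro h
        apply hg
        rw [smul_eq_mul] at h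
        exact mul_eq_right.mp h.symm
      have t12 : (rhoH3 (wv k) 1 g).trace + (rhoH3 (wv k) sgnC g).trace = 0 := by
        rw [rhoH3, rhoH3, trace_monRep, trace_monRep, ← Finset.sum_add_distrib]
        refine Finset.sum_eq_zero fun i _ => ?_
        by_cases hi : i = g.right • i
        · rw [if_pos hi, if_pos hi]
          have := congrArg (fun z : ℤ => (z : ℂ)) (fix_sign g.right i hg hi)
          have e3 : sgnC g.right = ((Perm.sign g.right : ℤ) : ℂ) := rfl
          rw [← mul_add, e3, MonoidHom.one_apply]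
          have h0 : (1 : ℂ) + ((Perm.sign g.right : ℤ) : ℂ) = 0 := by
            have := this
            push_cast at this ⊢
            exact this
          rw [h0, mul_zero]
        · rw [if_neg hi, if_neg hi, add_zero]
      rw [t3]
      linear_combination 3 * t12
  rw [h1, h2]
  have hone : g = 1 ↔ g.left.toAdd = 0 ∧ g.right = 1 := by
    rw [SemidirectProduct.ext_iff]
    simp
  by_cases hr : g.right = 1
  · by_cases hl : g.left.toAdd = 0
    · simp only [hone, hr, hl]; norm_num
    · simp only [hone, hr, hl]; norm_num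
  · simp only [hone, hr]; norm_num

/-! ### products -/

/-- outer tensor product -/
def prodRep {G H m n : Type} [Group G] [Group H] [Fintype m] [Fintype n] [DecidableEq m]
    [DecidableEq n] (ρ : G →* Matrix m m ℂ) (σ : H →* Matrix n n ℂ) :
    G × H →* Matrix (m × n) (m × n) ℂ where
  toFun g := kroneckerMap (· * ·) (ρ g.1) (σ g.2)
  map_one' := by
    simp only [Prod.fst_one, Prod.snd_one, map_one]
    exact Matrix.one_kronecker_one
  map_mul' g h := by
    simp only [Prod.fst_mul, Prod.snd_mul, map_mul]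
    exact Matrix.mul_kronecker_mul _ _ _ _

lemma trace_prodRep {G H m n : Type} [Group G] [Group H] [Fintype m] [Fintype n] [DecidableEq m]
    [DecidableEq n] (ρ : G →* Matrix m m ℂ) (σ : H →* Matrix n n ℂ) (g : G × H) :
    (prodRep ρ σ g).trace = (ρ g.1).trace * (σ g.2).trace :=
  Matrix.trace_kronecker _ _

lemma reg_prod {G H I J : Type} [Group G] [Group H] [Fintype I] [Fintype J] [DecidableEq G]
    [DecidableEq H]
    (m : I → Type) [∀ i, Fintype (m i)] [∀ i, DecidableEq (m i)]
    (n : J → Type) [∀ i, Fintype (n i)] [∀ i, DecidableEq (n i)]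
    (ρ : ∀ i, G →* Matrix (m i) (m i) ℂ) (σ : ∀ j, H →* Matrix (n j) (n j) ℂ)
    (d : I → ℕ) (e : J → ℕ) (a b : ℂ)
    (h1 : ∀ g, ∑ i, (d i : ℂ) * (ρ i g).trace = if g = 1 then a else 0)
    (h2 : ∀ g, ∑ j, (e j : ℂ) * (σ j g).trace = if g = 1 then b else 0) (g : G × H) :
    ∑ p : I × J, ((d p.1 * e p.2 : ℕ) : ℂ) * (prodRep (ρ p.1) (σ p.2) g).trace
      = if g = 1 then a * b else 0 := by
  have : ∀ p : I × J, ((d p.1 * e p.2 : ℕ) : ℂ) * (prodRep (ρ p.1) (σ p.2) g).trace
      = ((d p.1 : ℂ) * (ρ p.1 g.1).trace) * ((e p.2 : ℂ) * (σ p.2 g.2).trace) := by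
    intro p; rw [trace_prodRep]; push_cast; ring
  simp only [this]
  rw [Fintype.sum_prod_type]
  have hs := Fintype.sum_mul_sum (fun i => (d i : ℂ) * (ρ i g.1).trace)
    (fun j => (e j : ℂ) * (σ j g.2).trace)
  rw [h1, h2] at hs
  refine hs.symm.trans ?_
  by_cases hg1 : g.1 = 1
  · by_cases hg2 : g.2 = 1
    · have : g = 1 := Prod.ext hg1 hg2
      simp [this]
    · have : g ≠ 1 := fun h => hg2 (by rw [h]; rfl)
      simp [this, hg2]
  · have : g ≠ 1 := fun h => hg1 (by rw [h]; rfl)
    simp [this, hg1]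

end Pool.Agent.Lib.MP_b0cbe6_al
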