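import Pool.Agent.Lib.MP_b0cbe6_al.Families

/-!
Complete families for `A` and `H₀`.
-/

set_option autoImplicit false

namespace Pool.Agent.Lib.MP_b0cbe6_al

open Matrix Equiv

/-- characters of `V` -/
noncomputable def chiAct (x : Fin 3 → W) (σ : Perm (Fin 3)) : Multiplicative V →* ℂ :=
  (chi x).comp (phi σ⁻¹).toMonoidHom

lemma chiAct_apply (x : Fin 3 → W) (σ : Perm (Fin 3)) (v : Multiplicative V) :
    chiAct x σ v = (chiZ x (act σ⁻¹ v.toAdd) : ℂ) := rfl

lemma chiAct_equiv (x : Fin 3 → W) (γ σ : Perm (Fin 3)) (v : Multiplicative V) :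
    chiAct x (γ * σ) (phi γ v) = chiAct x σ v := by
  rw [chiAct_apply, chiAct_apply, phi_apply]
  simp only [toAdd_ofAdd]
  rw [← act_mul]
  congr 3
  group

/-- representatives of the free orbits of `C_3` on the nontrivial characters -/
def xA (k : Fin 7) (m : Fin 3) : Fin 3 → W :=
  if m = 0 then xc (wv k) 0 else if m = 1 then xl k else fun i => xl k (swap 0 1 i)

/-! ### the group `A` -/

/-- index set for `A` -/
abbrev IA : Type := ZMod 3 ⊕ (Fin 7 × Fin 3)

/-- index types of the matrices -/
def nA : IA → Type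
  | Sum.inl _ => Fin 1
  | Sum.inr _ => C3

instance (i : IA) : Fintype (nA i) := match i with
  | Sum.inl _ => inferInstanceAs (Fintype (Fin 1))
  | Sum.inr _ => inferInstanceAs (Fintype C3)

instance (i : IA) : DecidableEq (nA i) := match i with
  | Sum.inl _ => inferInstanceAs (DecidableEq (Fin 1))
  | Sum.inr _ => inferInstanceAs (DecidableEq C3)

/-- degrees -/
def dA : IA → ℕ
  | Sum.inl _ => 1
  | Sum.inr _ => 3

lemma card_nA (i : IA) : Fintype.card (nA i) = dA i := match i with
  | Sum.inl _ => rfl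
  | Sum.inr _ => rfl

/-- degree three representations of `A` -/
noncomputable def rhoA3 (x : Fin 3 → W) : GA →* Matrix C3 C3 ℂ :=
  monRep (phi.comp iota) (fun c => chiAct x (iota c))
    (by
      intro γ y v
      simp only [smul_eq_mul, map_mul, MonoidHom.comp_apply]
      exact chiAct_equiv x (iota γ) (iota y) v) 1

/-- the representations of `A` -/
noncomputable def rhoA : (i : IA) → GA →* Matrix (nA i) (nA i) ℂ
  | Sum.inl j => oneDim ((lam j).comp SemidirectProduct.rightHom)
  | Sum.inr (k, m) => rhoA3 (xA k m)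

lemma sumA : ∀ v : V, (∑ k, ∑ m, ∑ c : C3, chiZ (xA k m) (act (iota c)⁻¹ v))
    = if v = 0 then 63 else -1 := by
  decide +kernel

lemma card_V : Fintype.card (Multiplicative V) = 64 := by
  simp [V, W, ZMod.card]

lemma regA (g : GA) :
    ∑ i, (dA i : ℂ) * (rhoA i g).trace = if g = 1 then (192 : ℂ) else 0 := by
  rw [Fintype.sum_sum_type]
  have h1 : ∑ j : ZMod 3, (dA (Sum.inl j) : ℂ) * (rhoA (Sum.inl j) g).trace
      = if g.right = 1 then 3 else 0 := by
    rw [← regC g.right]
    refine Finset.sum_congr rfl fun j _ => ?_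
    have : (rhoA (Sum.inl j) g).trace = lam j g.right := by
      change (oneDim ((lam j).comp SemidirectProduct.rightHom) g).trace = _
      rw [trace_oneDim]; rfl
    rw [this]
    have d : dA (Sum.inl j) = 1 := rfl
    rw [d]; simp
  have tr3 : ∀ x : Fin 3 → W, (rhoA3 x g).trace =
      if g.right = 1 then ((∑ c : C3, chiZ x (act (iota c)⁻¹ g.left.toAdd) : ℤ) : ℂ) else 0 := by
    intro x
    rw [rhoA3, trace_monRep]
    by_cases hg : g.right = 1
    · rw [if_pos hg]
      push_cast
      refine Finset.sum_congr rfl fun c _ => ?_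
      rw [hg]
      simp [chiAct_apply]
    · rw [if_neg hg]
      refine Finset.sum_eq_zero fun c _ => ?_
      rw [if_neg]
      intro h
      apply hg
      rw [smul_eq_mul] at h
      exact mul_eq_right.mp h.symm
  have h2 : ∑ p : Fin 7 × Fin 3, (dA (Sum.inr p) : ℂ) * (rhoA (Sum.inr p) g).trace
      = if g.right = 1 then 3 * (if g.left.toAdd = 0 then 63 else -1) else 0 := by
    rw [Fintype.sum_prod_type]
    have e : ∀ k m, (dA (Sum.inr (k, m)) : ℂ) * (rhoA (Sum.inr (k, m)) g).trace
      = 3 * (rhoA3 (xA k m) g).trace := by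
      intro k m
      have d : dA (Sum.inr (k, m)) = 3 := rfl
      rw [d]; rfl
    simp only [e, tr3]
    by_cases hg : g.right = 1
    · simp only [hg, if_true]
      rw [← Finset.sum_congr rfl (fun k _ => Finset.mul_sum _ _ _), ← Finset.mul_sum]
      have := congrArg (fun z : ℤ => (z : ℂ)) (sumA g.left.toAdd)
      simp only [Int.cast_sum] at this ⊢
      rw [this]
      split_ifs <;> simp
    · simp [hg]
  rw [h1, h2]
  have hone : g = 1 ↔ g.left.toAdd = 0 ∧ g.right = 1 := by
    rw [SemidirectProduct.ext_iff]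
    simp
  by_cases hr : g.right = 1
  · by_cases hl : g.left.toAdd = 0
    · simp only [hone, hr, hl]; norm_num
    · simp only [hone, hr, hl]; norm_num
  · simp only [hone, hr]; norm_num

end Pool.Agent.Lib.MP_b0cbe6_al
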