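import Mathlib

/-!
The groups `A = F_4^3 : C_3`, `H₀ = F_4^3 : S_3` (in coordinates: sum-zero triples over `F_2^3`)
and monomial representations of semidirect products.
-/

set_option autoImplicit false

namespace Pool.Agent.Lib.MP_b0cbe6_al

open Matrix Equiv

/-- `F_2^3` -/
abbrev W : Type := ZMod 2 × ZMod 2 × ZMod 2

/-- the sum-zero triples `(a, b, a + b)` over `W` -/
abbrev V : Type := W × W

/-- the three coordinates of an element of `V` -/
def crd (v : V) (i : Fin 3) : W := if i = 0 then v.1 else if i = 1 then v.2 else v.1 + v.2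

lemma crd_add (v v' : V) (i : Fin 3) : crd (v + v') i = crd v i + crd v' i := by
  unfold crd
  split_ifs
  · rfl
  · rfl
  · simp only [Prod.fst_add, Prod.snd_add]
    abel

/-- permutation action on `V` -/
def act (σ : Perm (Fin 3)) (v : V) : V := (crd v (σ⁻¹ 0), crd v (σ⁻¹ 1))

lemma crd_act : ∀ (σ : Perm (Fin 3)) (v : V) (i : Fin 3), crd (act σ v) i = crd v (σ⁻¹ i) := by
  decide +kernel

lemma V_ext {v v' : V} (h : ∀ i, crd v i = crd v' i) : v = v' := by
  have h0 := h 0
  have h1 := h 1
  simp only [crd] at h0 h1
  simp at h0 h1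
  exact Prod.ext h0 h1

lemma act_mul (σ τ : Perm (Fin 3)) (v : V) : act (σ * τ) v = act σ (act τ v) := by
  apply V_ext; intro i
  rw [crd_act, crd_act, crd_act, _root_.mul_inv_rev]; rfl

lemma act_one (v : V) : act 1 v = v := by
  apply V_ext; intro i
  rw [crd_act]; simp

lemma act_add (σ : Perm (Fin 3)) (v v' : V) : act σ (v + v') = act σ v + act σ v' := by
  apply V_ext; intro i
  rw [crd_act, crd_add, crd_add, crd_act, crd_act]

/-- the action as additive automorphisms -/
def actAdd (σ : Perm (Fin 3)) : V ≃+ V where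
  toFun := act σ
  invFun := act σ⁻¹
  left_inv v := by rw [← act_mul]; simp [act_one]
  right_inv v := by rw [← act_mul]; simp [act_one]
  map_add' := act_add σ

/-- the action of `S_3` on `V`, multiplicatively -/
def phi : Perm (Fin 3) →* MulAut (Multiplicative V) where
  toFun σ := AddEquiv.toMultiplicative (actAdd σ)
  map_one' := MulEquiv.ext fun v => act_one v.toAdd
  map_mul' σ τ := MulEquiv.ext fun v => act_mul σ τ v.toAdd

lemma phi_apply (σ : Perm (Fin 3)) (v : Multiplicative V) :
    phi σ v = Multiplicative.ofAdd (act σ v.toAdd) := rfl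

/-- the cyclic group of order three -/
abbrev C3 : Type := Multiplicative (ZMod 3)

/-- `C_3 → S_3` -/
def iota : C3 →* Perm (Fin 3) where
  toFun c := (finRotate 3) ^ (c.toAdd.val)
  map_one' := by decide +kernel
  map_mul' := by decide +kernel

/-- `A = F_4^3 : C_3` -/
abbrev GA : Type := Multiplicative V ⋊[phi.comp iota] C3

/-- `H₀ = F_4^3 : S_3` -/
abbrev GH : Type := Multiplicative V ⋊[phi] Perm (Fin 3)

section Mon

variable {N Γ Y : Type} [Group N] [Group Γ] [Fintype Y] [DecidableEq Y] [MulAction Γ Y]

/-- monomial representation of a semidirect product attached to an equivariant family of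
linear characters -/
def monRep (φ : Γ →* MulAut N) (χ : Y → N →* ℂ)
    (hχ : ∀ γ y v, χ (γ • y) (φ γ v) = χ y v) (ε : Γ →* ℂ) : N ⋊[φ] Γ →* Matrix Y Y ℂ where
  toFun g := Matrix.of fun y z => if y = g.right • z then χ y g.left * ε g.right else 0
  map_one' := by
    ext y z
    simp [Matrix.one_apply]
  map_mul' g h := by
    ext y z
    simp only [Matrix.mul_apply, Matrix.of_apply, SemidirectProduct.mul_left,
      SemidirectProduct.mul_right, map_mul]
    rw [Finset.sum_eq_single (h.right • z)]
    · simp only [if_true]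
      by_cases hy : y = g.right • h.right • z
      · have : y = (g.right * h.right) • z := by rw [hy, mul_smul]
        rw [if_pos hy, if_pos this]
        have e : χ y (φ g.right h.left) = χ (h.right • z) h.left := by
          rw [hy, hχ]
        rw [e]; ring
      · have : ¬ y = (g.right * h.right) • z := by rwa [mul_smul]
        rw [if_neg hy, if_neg this, zero_mul]
    · intro b _ hb
      rw [if_neg hb, mul_zero]
    · intro h; exact absurd (Finset.mem_univ _) h

lemma trace_monRep (φ : Γ →* MulAut N) (χ : Y → N →* ℂ)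
    (hχ : ∀ γ y v, χ (γ • y) (φ γ v) = χ y v) (ε : Γ →* ℂ) (g : N ⋊[φ] Γ) :
    (monRep φ χ hχ ε g).trace = ∑ y, if y = g.right • y then χ y g.left * ε g.right else 0 := rfl

end Mon

/-- sign of an element of `F_2` -/
def sg (a : ZMod 2) : ℤ := if a = 0 then 1 else -1

lemma sg_add : ∀ a b : ZMod 2, sg (a + b) = sg a * sg b := by decide

/-- the dot product on `F_2^3` -/
def dot (x y : W) : ZMod 2 := x.1 * y.1 + x.2.1 * y.2.1 + x.2.2 * y.2.2

lemma dot_add (x y z : W) : dot x (y + z) = dot x y + dot x z := by
  unfold dot; simp only [Prod.fst_add, Prod.snd_add]; ring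

/-- exponent of the character of `V` attached to a triple `x` -/
def pair (x : Fin 3 → W) (v : V) : ZMod 2 :=
  dot (x 0) (crd v 0) + dot (x 1) (crd v 1) + dot (x 2) (crd v 2)

lemma pair_add (x : Fin 3 → W) (v v' : V) : pair x (v + v') = pair x v + pair x v' := by
  unfold pair; simp only [crd_add, dot_add]; ring

/-- the integral values of the character -/
def chiZ (x : Fin 3 → W) (v : V) : ℤ := sg (pair x v)

/-- the character of `V` attached to a triple `x` -/
def chi (x : Fin 3 → W) : Multiplicative V →* ℂ where
  toFun v := (chiZ x v.toAdd : ℂ)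
  map_one' := by
    have : chiZ x (0 : V) = 1 := by
      have h : pair x (0 : V) = 0 := by
        have := pair_add x 0 0
        simpa using this
      simp [chiZ, h, sg]
    simp [this]
  map_mul' v w := by
    simp only [toAdd_mul, chiZ, pair_add, sg_add]
    push_cast; rfl

lemma chi_apply (x : Fin 3 → W) (v : Multiplicative V) : chi x v = (chiZ x v.toAdd : ℂ) := rfl

/-- Singer cycle: the seven nonzero vectors of `F_2^3`. -/
def wv : Fin 7 → W := ![(1,0,0), (0,1,0), (0,0,1), (1,1,0), (0,1,1), (1,1,1), (1,0,1)]

/-- the lines, as triples -/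
def xl (k : Fin 7) : Fin 3 → W := ![wv k, wv (k + 1), wv (k + 3)]

/-- a single coordinate character -/
def xc (w : W) (i : Fin 3) : Fin 3 → W := fun j => if j = i then w else 0

end Pool.Agent.Lib.MP_b0cbe6_al
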