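import Pool.Agent.Lib.MP_b0cbe6_al.FamiliesThree

/-!
`G = A × S_3` and `H = H₀ × C_3` have isomorphic complex group algebras; the Sylow
2-subgroups of `G` are abelian, those of `H` are not.
-/

set_option autoImplicit false

namespace Pool.Agent.Lib.MP_b0cbe6_al

open Matrix Equiv

/-- `(F_4^3 : C_3) × S_3` -/
abbrev G1 : Type := GA × Perm (Fin 3)

/-- `(F_4^3 : S_3) × C_3` -/
abbrev G2 : Type := GH × C3

/-- the common index set -/
abbrev Ix : Type := IA × Fin 3

/-- the common degrees -/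
def dI (p : Ix) : ℕ := dA p.1 * dT p.2

/-- matching of the index sets -/
def ix : Ix ≃ IH × ZMod 3 where
  toFun
    | (Sum.inl j, t) => (Sum.inl t, j)
    | (Sum.inr (k, m), t) => (Sum.inr (k, t), m)
  invFun
    | (Sum.inl t, j) => (Sum.inl j, t)
    | (Sum.inr (k, t), m) => (Sum.inr (k, m), t)
  left_inv := by rintro ⟨j | ⟨k, m⟩, t⟩ <;> rfl
  right_inv := by rintro ⟨t | ⟨k, t⟩, j⟩ <;> rfl

lemma dI_eq (p : Ix) : dI p = dH (ix p).1 * 1 := by
  obtain ⟨j | ⟨k, m⟩, t⟩ := p
  · change 1 * dT t = dT t * 1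
    ring
  · change 3 * dT t = 3 * dT t * 1
    ring

instance : Fintype GA := Fintype.ofEquiv _ SemidirectProduct.equivProd.symm
instance : Fintype GH := Fintype.ofEquiv _ SemidirectProduct.equivProd.symm

lemma card_GA : Fintype.card GA = 192 := by
  rw [Fintype.card_congr SemidirectProduct.equivProd, Fintype.card_prod, card_V]
  simp [C3, ZMod.card]

lemma card_GH : Fintype.card GH = 384 := by
  rw [Fintype.card_congr SemidirectProduct.equivProd, Fintype.card_prod, card_V,
    Fintype.card_perm]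
  rfl

lemma algG1 : Nonempty (MonoidAlgebra ℂ G1 ≃ₐ[ℂ] (∀ i : Ix, Matrix (Fin (dI i)) (Fin (dI i)) ℂ)) := by
  classical
  refine exists_algEquiv_of_regular (G := G1) (I := Ix) (fun p => nA p.1 × Fin (dT p.2))
    (fun p => prodRep (rhoA p.1) (repT p.2)) dI ?_ ?_
  · intro p
    rw [Fintype.card_prod, card_nA, Fintype.card_fin]; rfl
  · intro g
    have h := reg_prod nA (fun t => Fin (dT t)) rhoA repT dA dT 192 6 regA regT g
    have hc : (Fintype.card G1 : ℂ) = 192 * 6 := by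
      rw [Fintype.card_prod, card_GA, Fintype.card_perm]
      norm_num [Nat.factorial]
    rw [hc]
    convert h
    rfl

lemma algG2 : Nonempty (MonoidAlgebra ℂ G2 ≃ₐ[ℂ] (∀ i : Ix, Matrix (Fin (dI i)) (Fin (dI i)) ℂ)) := by
  classical
  refine exists_algEquiv_of_regular (G := G2) (I := Ix) (fun p => nH (ix p).1 × Fin 1)
    (fun p => prodRep (rhoH (ix p).1) (oneDim (lam (ix p).2))) dI ?_ ?_
  · intro p
    rw [Fintype.card_prod, card_nH, Fintype.card_fin, dI_eq]
  · intro g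
    have hl : ∀ c : C3, ∑ j : ZMod 3, ((1 : ℕ) : ℂ) * (oneDim (lam j) c).trace
        = if c = 1 then (3 : ℂ) else 0 := by
      intro c
      rw [← regC c]
      refine Finset.sum_congr rfl fun j _ => ?_
      rw [trace_oneDim]; simp
    have h := reg_prod nH (fun _ : ZMod 3 => Fin 1) rhoH (fun j => oneDim (lam j)) dH
      (fun _ => 1) 384 3 regH hl g
    have hc : (Fintype.card G2 : ℂ) = 384 * 3 := by
      rw [Fintype.card_prod, card_GH]
      simp only [C3, Fintype.card_multiplicative, ZMod.card]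
      norm_num
    rw [hc]
    have h' : ∑ i : Ix, (dI i : ℂ) * (prodRep (rhoH (ix i).1) (oneDim (lam (ix i).2)) g).trace
        = ∑ p : IH × ZMod 3, ((dH p.1 * 1 : ℕ) : ℂ)
          * (prodRep (rhoH p.1) (oneDim (lam p.2)) g).trace := by
      rw [← Equiv.sum_comp ix]
      refine Finset.sum_congr rfl fun p _ => ?_
      rw [dI_eq]
    refine h'.trans ?_
    convert h

theorem alg_iso : Nonempty (MonoidAlgebra ℂ G1 ≃ₐ[ℂ] MonoidAlgebra ℂ G2) := by
  obtain ⟨e1⟩ := algG1
  obtain ⟨e2⟩ := algG2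
  exact ⟨e1.trans e2.symm⟩

/-! ### Sylow 2-subgroups -/

lemma sq_eq_one_of_two_pow {K : Type} [Group K] {g : K} {k : ℕ} (h : g ^ (2 ^ k) = 1)
    (h6 : g ^ 6 = 1) : g ^ 2 = 1 := by
  have h1 : g ^ Nat.gcd (2 ^ k) 6 = 1 := pow_gcd_eq_one.mpr ⟨h, h6⟩
  have h2 : Nat.gcd (2 ^ k) 6 ∣ 2 := by
    have hc : Nat.Coprime (2 ^ k) 3 := Nat.Coprime.pow_left k (by norm_num)
    have : Nat.gcd (2 ^ k) 6 = Nat.gcd (2 ^ k) 2 := by
      rw [show (6 : ℕ) = 2 * 3 from rfl]
      exact Nat.Coprime.gcd_mul_right_cancel_right 2 hc.symm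
    rw [this]
    exact Nat.gcd_dvd_right _ _
  obtain ⟨m, hm⟩ := h2
  rw [hm, pow_mul, h1, one_pow]

lemma c3_eq_one {c : C3} {k : ℕ} (h : c ^ (2 ^ k) = 1) : c = 1 := by
  have h3 : c ^ 3 = 1 := by
    have := pow_card_eq_one (x := c)
    simpa [C3, ZMod.card] using this
  have h1 : c ^ Nat.gcd (2 ^ k) 3 = 1 := pow_gcd_eq_one.mpr ⟨h, h3⟩
  have hc : Nat.gcd (2 ^ k) 3 = 1 := Nat.Coprime.pow_left k (by norm_num)
  rw [hc, pow_one] at h1
  exact h1

theorem sylow_comm (P : Sylow 2 G1) : ∀ x ∈ (P : Subgroup G1), ∀ y ∈ (P : Subgroup G1),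
    x * y = y * x := by
  have hp : ∀ x ∈ (P : Subgroup G1), ∃ k : ℕ, x ^ (2 ^ k) = 1 := by
    intro x hx
    obtain ⟨k, hk⟩ := P.isPGroup' ⟨x, hx⟩
    refine ⟨k, ?_⟩
    have := congrArg Subtype.val hk
    simpa using this
  have hr : ∀ x ∈ (P : Subgroup G1), x.1.right = 1 := by
    intro x hx
    obtain ⟨k, hk⟩ := hp x hx
    apply c3_eq_one (k := k)
    have := congrArg (fun z : G1 => SemidirectProduct.rightHom z.1) hk
    simp only [Prod.pow_fst, map_pow, Prod.fst_one, map_one] at this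
    exact this
  have hs : ∀ x ∈ (P : Subgroup G1), x.2 ^ 2 = 1 := by
    intro x hx
    obtain ⟨k, hk⟩ := hp x hx
    apply sq_eq_one_of_two_pow (k := k)
    · have := congrArg Prod.snd hk
      simpa using this
    · have := pow_card_eq_one (x := x.2)
      rwa [Fintype.card_perm] at this
  intro x hx y hy
  apply Prod.ext
  · apply SemidirectProduct.ext
    · simp only [Prod.fst_mul, SemidirectProduct.mul_left, hr x hx, hr y hy, map_one,
        MulAut.one_apply]
      exact mul_comm _ _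
    · simp only [Prod.fst_mul, SemidirectProduct.mul_right, hr x hx, hr y hy]
  · have h1 := hs x hx
    have h2 := hs y hy
    have h3 := hs (x * y) (mul_mem hx hy)
    simp only [Prod.snd_mul, pow_two] at h1 h2 h3 ⊢
    have i1 : x.2⁻¹ = x.2 := inv_eq_of_mul_eq_one_left h1
    have i2 : y.2⁻¹ = y.2 := inv_eq_of_mul_eq_one_left h2
    have i3 : (x.2 * y.2)⁻¹ = x.2 * y.2 := inv_eq_of_mul_eq_one_left h3
    rw [_root_.mul_inv_rev, i1, i2] at i3
    exact i3.symm

/-- the subgroup `(F_4^3 : C_2) × 1` -/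
def K2 : Subgroup G2 :=
  ((Subgroup.zpowers (swap (0 : Fin 3) 1)).prod (⊥ : Subgroup C3)).comap
    (MonoidHom.prodMap SemidirectProduct.rightHom (MonoidHom.id C3))

lemma mem_K2 (x : G2) : x ∈ K2 ↔ x.1.right ∈ Subgroup.zpowers (swap (0 : Fin 3) 1) ∧ x.2 = 1 := by
  unfold K2
  rw [Subgroup.mem_comap, Subgroup.mem_prod, Subgroup.mem_bot]
  rfl

lemma isPGroup_K2 : IsPGroup 2 K2 := by
  rintro ⟨⟨g, c⟩, hg⟩
  refine ⟨2, ?_⟩
  obtain ⟨hs, hc⟩ := (mem_K2 _).mp hg
  simp only at hs hc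
  have hr : g.right * g.right = 1 := by
    obtain ⟨n, hn⟩ := Subgroup.mem_zpowers_iff.mp hs
    rw [← hn, ← (Commute.refl _).mul_zpow, Equiv.swap_mul_self, _root_.one_zpow]
  have h2 : (g * g).right = 1 := by
    rw [SemidirectProduct.mul_right, hr]
  have h4 : (g * g) * (g * g) = 1 := by
    apply SemidirectProduct.ext
    · rw [SemidirectProduct.mul_left, h2, map_one, MulAut.one_apply, SemidirectProduct.one_left]
      have : ∀ v : Multiplicative V, v * v = 1 := by
        intro v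
        have h : ∀ w : V, w + w = 0 := by decide +kernel
        exact congrArg Multiplicative.ofAdd (h v.toAdd)
      exact this _
    · rw [SemidirectProduct.mul_right, h2, SemidirectProduct.one_right, mul_one]
  apply Subtype.ext
  have e : (2 : ℕ) ^ 2 = 2 * 2 := rfl
  rw [e, pow_mul]
  simp only [Subgroup.coe_pow, Subgroup.coe_one]
  apply Prod.ext
  · simp only [Prod.fst_one, pow_two]
    exact h4
  · simp only [Prod.pow_snd, Prod.snd_one, hc, one_pow]

theorem sylow_noncomm : ¬ ∀ Q : Sylow 2 G2, ∀ x ∈ (Q : Subgroup G2), ∀ y ∈ (Q : Subgroup G2),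
    x * y = y * x := by
  intro h
  obtain ⟨Q, hQ⟩ := isPGroup_K2.exists_le_sylow
  let v : Multiplicative V := Multiplicative.ofAdd ((1, 0, 0), (0, 0, 0))
  have hx : ((SemidirectProduct.inr (swap (0 : Fin 3) 1), 1) : G2) ∈ K2 := by
    rw [mem_K2]
    refine ⟨?_, rfl⟩
    simp only [SemidirectProduct.right_inr]
    exact Subgroup.mem_zpowers _
  have hy : ((SemidirectProduct.inl v, 1) : G2) ∈ K2 := by
    rw [mem_K2]
    refine ⟨?_, rfl⟩
    simp only [SemidirectProduct.right_inl]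
    exact one_mem _
  have hc := congrArg (fun z : G2 => z.1.left) (h Q _ (hQ hx) _ (hQ hy))
  simp only [Prod.fst_mul, SemidirectProduct.mul_left, SemidirectProduct.left_inr,
    SemidirectProduct.left_inl, SemidirectProduct.right_inr, SemidirectProduct.right_inl,
    one_mul, map_one, mul_one] at hc
  have hne : act (swap (0 : Fin 3) 1) ((1, 0, 0), (0, 0, 0)) ≠ ((1, 0, 0), (0, 0, 0)) := by
    decide +kernel
  exact hne hc

end Pool.Agent.Lib.MP_b0cbe6_al
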